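import Pool.Agent.NRM.All

/-!
# NRT: graphs in which most pairs of vertices have `C log n` differences are reconstructible

If outside a set `Y` of at most `n / (C log n)` vertices any two vertices of `G` are distinguished by
at least `C log n` vertices, then `T(G)` is reconstructible: with `d = 201 log n` there are no closed
components with at most `100 log n < d / 2` vertices, so the construction of NRM gives a set which
distinguishes all vertices and has few embeddings.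
-/

set_option autoImplicit false

open Finset Classical

namespace Pool.Agent.NRT

open Pool.Agent Pool.Agent.Lib.Recon Pool.Agent.RNB Pool.Agent.NRC Pool.Agent.NRM

/-! ### no small closed components -/

theorem SC_empty {V : Type} [Fintype V] (G : SimpleGraph V) (g q h d M : ℕ) (A Y : Finset V)
    (hM : 2 * M < d) : (SC G g M A (PP G g q h d A Y)).card = 0 := by
  rw [card_eq_zero]
  by_contra hne
  obtain ⟨W, hW⟩ := nonempty_iff_ne_empty.2 hne
  unfold SC at hW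
  obtain ⟨y, hy, rfl⟩ := mem_image.1 hW
  obtain ⟨hyP, hyM, hcl⟩ := mem_filter.1 hy
  have hyC : y ∈ CO G g A (PP G g q h d A Y) y := by
    unfold CO
    exact mem_filter.2 ⟨mem_univ _, Relation.ReflTransGen.refl⟩
  have h1 := card_le_card (hcl y hyC)
  have h2 : d ≤ 2 * (IN G (2 * g) A y).card := by
    have h3 : y ∈ P0 G g q h d A Y := (mem_filter.1 hyP).1
    have h4 : y ∈ LL G g q h d A := (mem_sdiff.1 h3).1
    exact ((mem_filter.1 h4).2).2
  omega

/-! ### numbers -/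

theorem logbig (k : ℕ) : ∃ n0 : ℕ, ∀ n : ℕ, n0 ≤ n → k ≤ Nat.log 2 n :=
  ⟨2 ^ k, fun _ hn => Nat.le_log_of_pow_le (by norm_num) hn⟩

theorem lin_le (k : ℕ) (hk : 12 ≤ k) : 201 * (k + 1) ≤ 2 ^ k := by
  induction k, hk using Nat.le_induction with
  | base => norm_num
  | succ k hk ih =>
    rw [pow_succ]
    omega

theorem sq_le (k : ℕ) (hk : 20 ≤ k) : 20000 * (k + 1) ^ 2 ≤ 201 * 2 ^ k := by
  induction k, hk using Nat.le_induction with
  | base => norm_num
  | succ k hk ih =>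
    have h : 20000 * (k + 1 + 1) ^ 2 ≤ 2 * (20000 * (k + 1) ^ 2) := by nlinarith
    calc 20000 * (k + 1 + 1) ^ 2 ≤ 2 * (20000 * (k + 1) ^ 2) := h
      _ ≤ 2 * (201 * 2 ^ k) := Nat.mul_le_mul_left _ ih
      _ = 201 * 2 ^ (k + 1) := by ring

theorem aux (n L l a e e1 e2 x c y b t pk' : ℝ) (hL : 1000 ≤ L) (hl : 10 ≤ l) (hlL : 50 * l ≤ L)
    (h0 : 0 ≤ a) (h1 : 0 ≤ e) (h2 : 0 ≤ e1) (h3 : 0 ≤ e2) (h4 : 0 ≤ x) (h5 : 0 ≤ c) (h6 : 0 ≤ b)
    (hy : y * (1000 * L) ≤ n)
    (hp : 0 ≤ pk') (ha : a * L ^ 2 ≤ n)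
    (he : 4 * L ^ 6 * e ≤ 4 * n * L ^ 3) (he1 : 4 * L ^ 6 * e1 ≤ 4 * n * L ^ 3)
    (he2 : 8 * (4 * L ^ 6) * e2 ≤ n) (hc : 100 * L * c ≤ n) (hx : x * L ^ 2 ≤ n)
    (hb : b ≤ a + e + 2 * (e1 + e2 + y) + y + x + c) (ht : t ≤ b + 3 * pk')
    (hk : pk' * (300 * l) ≤ n) :
    b * L ≤ n / 50 ∧ t * l ≤ n / 90 ∧ 32 * t ≤ n := by
  have hL0 : 0 < L := by linarith
  have hl0 : 0 < l := by linarith
  have hL3 : 0 < L ^ 3 := by positivity
  have key : ∀ y : ℝ, 0 ≤ y → y * L ^ 2 ≤ n → 1000 * (y * L) ≤ n := by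
    intro y hy h
    have : 1000 * (y * L) ≤ L * (y * L) := by
      apply mul_le_mul_of_nonneg_right hL
      positivity
    nlinarith
  have hsq : ∀ y : ℝ, 0 ≤ y → y * L ^ 3 ≤ n → y * L ^ 2 ≤ n := by
    intro y hy h
    have h7 : y * L ^ 2 * 1 ≤ y * L ^ 2 * L := by
      apply mul_le_mul_of_nonneg_left (by linarith)
      positivity
    calc y * L ^ 2 = y * L ^ 2 * 1 := by ring
      _ ≤ y * L ^ 2 * L := h7
      _ = y * L ^ 3 := by ring
      _ ≤ n := h
  have hdiv : ∀ y : ℝ, 4 * L ^ 6 * y ≤ 4 * n * L ^ 3 → y * L ^ 3 ≤ n := by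
    intro y h
    have h8 : (y * L ^ 3) * (4 * L ^ 3) ≤ n * (4 * L ^ 3) := by
      calc (y * L ^ 3) * (4 * L ^ 3) = 4 * L ^ 6 * y := by ring
        _ ≤ 4 * n * L ^ 3 := h
        _ = n * (4 * L ^ 3) := by ring
    exact le_of_mul_le_mul_right h8 (by positivity)
  have ka := key a h0 ha
  have ke := key e h1 (hsq e h1 (hdiv e he))
  have ke1 := key e1 h2 (hsq e1 h2 (hdiv e1 he1))
  have kx := key x h4 hx
  have ke2 : 1000 * (e2 * L) ≤ n := by
    apply key e2 h3
    have h9 : e2 * L ^ 2 * 1 ≤ e2 * L ^ 2 * (32 * L ^ 4) := by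
      apply mul_le_mul_of_nonneg_left
      · have : (1 : ℝ) ≤ L ^ 4 := one_le_pow₀ (by linarith)
        linarith
      · positivity
    calc e2 * L ^ 2 = e2 * L ^ 2 * 1 := by ring
      _ ≤ e2 * L ^ 2 * (32 * L ^ 4) := h9
      _ = 8 * (4 * L ^ 6) * e2 := by ring
      _ ≤ n := he2
  have kc : 100 * (c * L) ≤ n := by linarith
  have ky : 1000 * (y * L) ≤ n := by linarith
  have hbL : b * L ≤ (a + e + 2 * (e1 + e2 + y) + y + x + c) * L :=
    mul_le_mul_of_nonneg_right hb hL0.le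
  have n0 : 0 ≤ n := by
    have : 0 ≤ 100 * (c * L) := by positivity
    linarith
  have c1 : b * L ≤ n / 50 := by
    have h10 : (a + e + 2 * (e1 + e2 + y) + y + x + c) * L =
        a * L + e * L + 2 * (e1 * L) + 2 * (e2 * L) + 3 * (y * L) + x * L + c * L := by
      ring
    rw [h10] at hbL
    linarith
  have c2 : b * l ≤ n / 2500 := by
    have : b * (50 * l) ≤ b * L := mul_le_mul_of_nonneg_left hlL h6
    linarith
  have c3 : b * 1000 ≤ b * L := mul_le_mul_of_nonneg_left hL h6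
  have c4 : pk' * (300 * 10) ≤ pk' * (300 * l) := by
    apply mul_le_mul_of_nonneg_left _ hp
    linarith
  refine ⟨c1, ?_, ?_⟩
  · have h11 : t * l ≤ (b + 3 * pk') * l := mul_le_mul_of_nonneg_right ht hl0.le
    have h12 : (b + 3 * pk') * l = b * l + 3 * (pk' * l) := by ring
    rw [h12] at h11
    have h13 : pk' * (300 * l) = 300 * (pk' * l) := by ring
    rw [h13] at hk
    linarith
  · linarith

theorem nums (n : ℕ) (hL : 2 ^ 20 ≤ Nat.log 2 n) (a e e1 e2 x c y b t : ℕ) (ha : a ≤ pN n)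
    (he : (pg n : ℝ) * e ≤ 4 * n * (pL n : ℝ) ^ 3) (he1 : (pg n : ℝ) * e1 ≤ 4 * n * (pL n : ℝ) ^ 3)
    (he2 : pq n * e2 ≤ n) (hc : pM n * c ≤ n) (hx : (x : ℝ) * (pL n : ℝ) ^ 2 ≤ n)
    (hy : y * (1000 * pL n) ≤ n) (hb : b ≤ a + e + 2 * (e1 + e2 + y) + y + x + c)
    (ht : t ≤ b + 3 * pk n) : (b : ℝ) * pL n ≤ n / 50 ∧ (t : ℝ) * pl n ≤ n / 90 ∧ 32 * t ≤ n := by
  have hL' : 1000 ≤ pL n := by
    unfold pL
    omega
  have hL0 : pL n ≠ 0 := by omega
  have hk : 9 ≤ Nat.log 2 (pL n) := by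
    apply Nat.le_log_of_pow_le (by norm_num)
    calc 2 ^ 9 ≤ 1000 := by norm_num
      _ ≤ pL n := hL'
  have hl : 10 ≤ pl n := by
    unfold pl
    omega
  have hlL : 50 * pl n ≤ pL n := by
    have h1 := NBM_.fifty _ hk
    have h2 : 2 ^ Nat.log 2 (pL n) ≤ pL n := Nat.pow_log_le_self 2 hL0
    unfold pl
    omega
  have ha' : a * pL n ^ 2 ≤ n := by
    calc a * pL n ^ 2 ≤ n / pL n ^ 2 * pL n ^ 2 := Nat.mul_le_mul_right _ ha
      _ ≤ n := Nat.div_mul_le_self _ _
  have hpk : pk n * (300 * pl n) ≤ n := Nat.div_mul_le_self _ _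
  have hpg : (pg n : ℝ) = 4 * (pL n : ℝ) ^ 6 := by
    unfold pg
    push_cast
    ring
  rw [hpg] at he he1
  have he2' : 8 * (4 * (pL n : ℝ) ^ 6) * e2 ≤ n := by
    have h : ((pq n * e2 : ℕ) : ℝ) ≤ (n : ℝ) := by exact_mod_cast he2
    have h' : ((pq n * e2 : ℕ) : ℝ) = 8 * (4 * (pL n : ℝ) ^ 6) * e2 := by
      unfold pq pg
      push_cast
      ring
    rwa [h'] at h
  have hc' : 100 * (pL n : ℝ) * c ≤ n := by
    have h : ((pM n * c : ℕ) : ℝ) ≤ (n : ℝ) := by exact_mod_cast hc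
    have h' : ((pM n * c : ℕ) : ℝ) = 100 * (pL n : ℝ) * c := by
      unfold pM
      push_cast
      ring
    rwa [h'] at h
  have h := aux n (pL n) (pl n) a e e1 e2 x c y b t (pk n) (by exact_mod_cast hL')
    (by exact_mod_cast hl) (by exact_mod_cast hlL) (Nat.cast_nonneg _) (Nat.cast_nonneg _)
    (Nat.cast_nonneg _) (Nat.cast_nonneg _) (Nat.cast_nonneg _) (Nat.cast_nonneg _)
    (Nat.cast_nonneg _) (by exact_mod_cast hy) (Nat.cast_nonneg _) (by exact_mod_cast ha')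
    he he1 he2' hc' hx (by exact_mod_cast hb) (by exact_mod_cast ht) (by exact_mod_cast hpk)
  exact ⟨h.1, h.2.1, by exact_mod_cast h.2.2⟩

theorem bounds (n : ℕ) (hL : 2 ^ 20 ≤ Nat.log 2 n) :
    201 * pL n ≤ n ∧ pd n ≤ 201 * pL n ∧ 2 * pM n < 201 * pL n ∧ 1 ≤ 201 * pL n := by
  have h0 : n ≠ 0 := by
    rintro rfl
    simp at hL
  have h1 : 2 ^ Nat.log 2 n ≤ n := Nat.pow_log_le_self 2 h0
  have hL1 : 1 ≤ pL n := by unfold pL; omega
  refine ⟨?_, ?_, ?_, by omega⟩
  · unfold pL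
    exact (lin_le _ (by omega)).trans h1
  · have h2 : 2 ^ Nat.log 2 (pL n) ≤ pL n := Nat.pow_log_le_self 2 (by omega)
    have h3 : 20 ≤ Nat.log 2 (pL n) := by
      apply Nat.le_log_of_pow_le (by norm_num)
      unfold pL
      omega
    have h4 := sq_le _ h3
    unfold pd pl
    omega
  · unfold pM
    omega

/-! ### the theorem -/

theorem main : ∃ n0 : ℕ, ∀ (V : Type) [Fintype V] (G H : SimpleGraph V),
    n0 ≤ Fintype.card V → ∀ Y : Finset V, Y.card * (1000 * pL (Fintype.card V)) ≤ Fintype.card V →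
    Far G (201 * pL (Fintype.card V)) Y → (∀ v, CardIso G H v v) →
    ∃ α : V ≃ V, ∀ x y, G.Adj x y ↔ H.Adj (α x) (α y) := by
  obtain ⟨n1, h1⟩ := NRC.p_NPA
  obtain ⟨n2, h2⟩ := NRC.p_NX
  obtain ⟨n3, h3⟩ := logbig (2 ^ 20)
  obtain ⟨n4, h4⟩ := NRC.p_NF
  refine ⟨n1 + n2 + n3 + n4 + 3, fun V _ G H hn Y hY hfar hc => ?_⟩
  obtain ⟨-, hnum, hN3, hN4, hN5, hN6⟩ := h1 (Fintype.card V) (by omega)
  have hlog := h3 (Fintype.card V) (by omega)
  obtain ⟨hb1, hb2, hb3, hb4⟩ := bounds _ hlog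
  have hn0 : (0 : ℝ) < Fintype.card V := by
    have : 0 < Fintype.card V := by omega
    exact_mod_cast this
  have hL0 : (0 : ℝ) < pL (Fintype.card V) := by exact_mod_cast NRC.HLF_.pL_pos _
  -- the net
  obtain ⟨A, hA, hs⟩ : ∃ A : Finset V, A.card ≤ pN (Fintype.card V) ∧
      (sm G A : ℝ) ≤ 4 * (Fintype.card V : ℝ) * (pL (Fintype.card V) : ℝ) ^ 3 := by
    have hR := NRC.p_RSQ V G (pN (Fintype.card V))
      (4 * (Fintype.card V : ℝ) * (pL (Fintype.card V) : ℝ) ^ 3) (by positivity) hnum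
    have hN1 : 1 ≤ pN (Fintype.card V) := (h1 (Fintype.card V) (by omega)).1
    have hpos : (0 : ℝ) < (pN (Fintype.card V) : ℝ) *
        (Fintype.card V : ℝ) ^ pN (Fintype.card V) := by
      have : (0 : ℝ) < pN (Fintype.card V) := by exact_mod_cast hN1
      positivity
    have hc0 : (0 : ℝ) < ((univ.filter (fun p : Fin (pN (Fintype.card V)) ×
        (Fin (pN (Fintype.card V)) → V) => (sm G (Bi ∅ p.2 p.1) : ℝ) ≤
          4 * (Fintype.card V : ℝ) * (pL (Fintype.card V) : ℝ) ^ 3)).card : ℝ) := by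
      linarith
    have hc' : 0 < (univ.filter (fun p : Fin (pN (Fintype.card V)) ×
        (Fin (pN (Fintype.card V)) → V) => (sm G (Bi ∅ p.2 p.1) : ℝ) ≤
          4 * (Fintype.card V : ℝ) * (pL (Fintype.card V) : ℝ) ^ 3)).card := by
      exact_mod_cast hc0
    obtain ⟨p, hp⟩ := card_pos.1 hc'
    exact ⟨Bi ∅ p.2 p.1, NRC.HLF_.card_Bi _ _, (mem_filter.1 hp).2⟩
  obtain ⟨B, T, e, e1, e2, x, c, hD, hB, hT, hBc, he, he1, he2, hc', hx⟩ :=
    NRM.a_STM V G (pg (Fintype.card V)) (pq (Fintype.card V)) (pg (Fintype.card V))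
      (201 * pL (Fintype.card V)) (pM (Fintype.card V)) (pk (Fintype.card V)) A Y (by omega) hN5
      hN4 hb4 hb1 hfar
  rw [SC_empty G _ _ _ _ _ A Y hb3, add_zero] at hBc
  have hdR : ((201 * pL (Fintype.card V) : ℕ) : ℝ) ≤ Fintype.card V := by exact_mod_cast hb1
  have hpdR : (pd (Fintype.card V) : ℝ) ≤ ((201 * pL (Fintype.card V) : ℕ) : ℝ) := by
    exact_mod_cast hb2
  have hx' : (x : ℝ) ≤ ((Fintype.card V : ℝ) * (1 + (pq (Fintype.card V) : ℝ) +
      (pg (Fintype.card V) : ℝ) * (2 * (pg (Fintype.card V) : ℝ)))) *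
      (1 - (pd (Fintype.card V) : ℝ) / (2 * Fintype.card V)) ^ (pk (Fintype.card V)) := by
    refine hx.trans ?_
    refine mul_le_mul_of_nonneg_left ?_ (by positivity)
    refine pow_le_pow_left₀ ?_ ?_ _
    · rw [sub_nonneg, div_le_one (by positivity)]
      linarith
    · have : (pd (Fintype.card V) : ℝ) / (2 * Fintype.card V) ≤
          ((201 * pL (Fintype.card V) : ℕ) : ℝ) / (2 * Fintype.card V) := by
        gcongr
      linarith
  have hxx : (x : ℝ) * (pL (Fintype.card V) : ℝ) ^ 2 ≤ (Fintype.card V : ℝ) :=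
    (mul_le_mul_of_nonneg_right hx' (by positivity)).trans (h2 (Fintype.card V) (by omega))
  have hec : (pg (Fintype.card V) : ℝ) * e ≤
      4 * (Fintype.card V : ℝ) * (pL (Fintype.card V) : ℝ) ^ 3 := by
    have h5 : ((pg (Fintype.card V) * e : ℕ) : ℝ) ≤ (sm G A : ℝ) := Nat.cast_le.2 he
    rw [Nat.cast_mul] at h5
    exact h5.trans hs
  have hec1 : (pg (Fintype.card V) : ℝ) * e1 ≤
      4 * (Fintype.card V : ℝ) * (pL (Fintype.card V) : ℝ) ^ 3 := by
    have h5 : ((pg (Fintype.card V) * e1 : ℕ) : ℝ) ≤ (sm G A : ℝ) := Nat.cast_le.2 he1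
    rw [Nat.cast_mul] at h5
    exact h5.trans hs
  obtain ⟨hb, ht, ht32⟩ := nums (Fintype.card V) hlog A.card e e1 e2 x c Y.card B.card
    T.card hA hec hec1 he2 hc' hxx hY hBc hT
  have hF := h4 (Fintype.card V) (by omega) B.card T.card hb ht ht32
  have hq : 1 ≤ pq (Fintype.card V) := by omega
  have hE := NRC.a_EMC V G (pq (Fintype.card V)) B T hq hB
  refine NRC.p_RMS V G H T hc hD (lt_of_le_of_lt ?_ hF)
  exact Nat.pow_le_pow_left (Nat.mul_le_mul_left 2 hE) 2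

/-- **Deterministic criterion.** If outside a set `Y` of at most `n / (C log n)` vertices any two
vertices of `G` are distinguished by at least `C log n` vertices, then `T(G)` is reconstructible. -/
theorem crit0 : ∃ C : ℝ, 0 < C ∧ ∀ (V : Type) [Fintype V] (G H : SimpleGraph V) (Y : Finset V),
    3 ≤ Fintype.card V →
    C * Real.logb 2 (Fintype.card V) * Y.card ≤ Fintype.card V →
    (∀ u v, u ∉ Y → v ∉ Y → u ≠ v →
      C * Real.logb 2 (Fintype.card V) ≤ ((dset G u v).card : ℝ)) → (∀ v, CardIso G H v v) →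
    ∃ α : V ≃ V, ∀ x y, G.Adj x y ↔ H.Adj (α x) (α y) := by
  obtain ⟨n0, hn0⟩ := main
  refine ⟨2000 + n0, by positivity, fun V _ G H Y h3 hY hd hc => ?_⟩
  have hcard : (3 : ℝ) ≤ Fintype.card V := by exact_mod_cast h3
  have hlog1 : 1 ≤ Real.logb 2 (Fintype.card V) := by
    rw [Real.le_logb_iff_rpow_le (by norm_num) (by linarith)]
    rw [Real.rpow_one]
    linarith
  have hLle : (pL (Fintype.card V) : ℝ) ≤ 2 * Real.logb 2 (Fintype.card V) := by
    have h1 : ((Nat.log 2 (Fintype.card V) : ℕ) : ℝ) ≤ Real.logb 2 (Fintype.card V) := by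
      rw [Real.le_logb_iff_rpow_le (by norm_num) (by linarith), Real.rpow_natCast]
      have : 2 ^ Nat.log 2 (Fintype.card V) ≤ Fintype.card V :=
        Nat.pow_log_le_self 2 (by omega)
      exact_mod_cast this
    unfold pL
    push_cast
    linarith
  have hYn : (0 : ℝ) ≤ Y.card := Nat.cast_nonneg _
  have hn0' : (0 : ℝ) ≤ n0 := Nat.cast_nonneg _
  by_cases hn : n0 ≤ Fintype.card V
  · refine hn0 V G H hn Y ?_ ?_ hc
    · have h1 : (Y.card : ℝ) * (1000 * pL (Fintype.card V)) ≤ Fintype.card V := by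
        refine le_trans ?_ hY
        calc (Y.card : ℝ) * (1000 * pL (Fintype.card V)) ≤
            Y.card * (1000 * (2 * Real.logb 2 (Fintype.card V))) := by gcongr
          _ = 2000 * Real.logb 2 (Fintype.card V) * Y.card := by ring
          _ ≤ (2000 + n0) * Real.logb 2 (Fintype.card V) * Y.card := by
            gcongr
            linarith
      exact_mod_cast h1
    · intro u v hu hv huv
      have h1 := hd u v hu hv huv
      have h2 : ((201 * pL (Fintype.card V) : ℕ) : ℝ) ≤ ((dset G u v).card : ℝ) := by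
        refine le_trans ?_ h1
        push_cast
        nlinarith
      exact_mod_cast h2
  · exfalso
    rw [not_le] at hn
    have hnR : (Fintype.card V : ℝ) < n0 := by exact_mod_cast hn
    have hY0 : Y.card = 0 := by
      by_contra hne
      have h1 : (1 : ℝ) ≤ Y.card := by exact_mod_cast Nat.one_le_iff_ne_zero.2 hne
      have h2 : (2000 + (n0 : ℝ)) * 1 * 1 ≤
          (2000 + n0) * Real.logb 2 (Fintype.card V) * Y.card := by
        gcongr
      linarith
    have hYe : Y = ∅ := card_eq_zero.1 hY0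
    obtain ⟨u, v, huv⟩ := Fintype.exists_pair_of_one_lt_card (α := V) (by omega)
    have h1 := hd u v (by simp [hYe]) (by simp [hYe]) huv
    have h2 : ((dset G u v).card : ℝ) ≤ Fintype.card V := by
      exact_mod_cast card_le_univ _
    have h3 : (2000 + (n0 : ℝ)) * 1 ≤ (2000 + n0) * Real.logb 2 (Fintype.card V) := by
      gcongr
    linarith

/-- **Deterministic criterion**, for truncated clique lattices -/
theorem crit : ∃ C : ℝ, 0 < C ∧ ∀ (V : Type) [Fintype V] (G : SimpleGraph V) (Y : Finset V),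
    3 ≤ Fintype.card V →
    C * Real.logb 2 (Fintype.card V) * Y.card ≤ Fintype.card V →
    (∀ u v, u ∉ Y → v ∉ Y → u ≠ v →
      C * Real.logb 2 (Fintype.card V) ≤ ((dset G u v).card : ℝ)) → HER47.Rec G := by
  obtain ⟨C, hC, h⟩ := crit0
  exact ⟨C, hC, fun V _ G Y h3 hY hd => NRM.p_RCM V G h3 fun H hc => h V G H Y h3 hY hd hc⟩

end Pool.Agent.NRT
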