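import Pool.Agent.NRP.Final
import Pool.Agent.NRT.Crit

/-!
# The number of reconstructions: all bounds (MP_552896_co)
-/

set_option autoImplicit false

open Finset Classical

namespace Pool.Agent.NRT

open Pool.Agent Pool.Agent.Lib.Recon Pool.Agent.RNum Pool.Agent.RNB

theorem number_all (h_ALQ : NRP.T_ALQ) : ∃ C : ℝ, 0 < C ∧
    ∀ (V : Type) [Fintype V] (G : SimpleGraph V), 3 ≤ Fintype.card V → ∀ e : ℝ,
    (C ≤ e ∨
      (∃ D : ℕ, 16 * (Real.logb 2 D) ^ 2 + 3 ≤ e ∧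
        ((∀ v, (G.neighborSet v).ncard ≤ D) ∨ ∀ v, (Gᶜ.neighborSet v).ncard ≤ D)) ∨
      (∃ u v, u ≠ v ∧
        max 1 ({w : V | w ≠ u ∧ w ≠ v ∧ ¬ (G.Adj w u ↔ G.Adj w v)}.ncard : ℝ) + 3 ≤ e) ∨
      (0 ≤ e ∧ ∃ Y : Finset V, C * Real.logb 2 (Fintype.card V) * Y.card ≤ Fintype.card V ∧
        ∀ u v, u ∉ Y → v ∉ Y → u ≠ v → C * Real.logb 2 (Fintype.card V) ≤
          ({w : V | w ≠ u ∧ w ≠ v ∧ ¬ (G.Adj w u ↔ G.Adj w v)}.ncard : ℝ))) →
    ∀ (ι : Type) [Fintype ι] (W : ι → Type) [∀ i, Fintype (W i)] (H : ∀ i, SimpleGraph (W i))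
    (f : ∀ i, V ≃ W i),
    (∀ i, ∀ v : V,
      Nonempty ({s : Finset V // s.Nonempty ∧ G.IsClique (s : Set V) ∧ v ∉ s} ≃o
        {t : Finset (W i) // t.Nonempty ∧ (H i).IsClique (t : Set (W i)) ∧ f i v ∉ t})) →
    (∀ i j, i ≠ j →
      ¬ Nonempty ({s : Finset (W i) // s.Nonempty ∧ (H i).IsClique (s : Set (W i))} ≃o
        {t : Finset (W j) // t.Nonempty ∧ (H j).IsClique (t : Set (W j))})) →
    (Fintype.card ι : ℝ) ≤ (Fintype.card V : ℝ) ^ e := by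
  obtain ⟨C₁, hC₁, h1⟩ := NRP.number_min_clique h_ALQ
  obtain ⟨C₂, hC₂, h2⟩ := crit
  refine ⟨max (C₁ + 3) C₂, lt_max_of_lt_right hC₂, ?_⟩
  intro V _ G hn e he ι _ W _ H f hdeck hne
  have hnR : (1 : ℝ) ≤ Fintype.card V := by
    have : 1 ≤ Fintype.card V := by omega
    exact_mod_cast this
  have key : (C₁ ≤ e - 3 ∨
      (∃ D : ℕ, 16 * (Real.logb 2 D) ^ 2 ≤ e - 3 ∧
        ((∀ v, (G.neighborSet v).ncard ≤ D) ∨ ∀ v, (Gᶜ.neighborSet v).ncard ≤ D)) ∨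
      (1 ≤ e - 3 ∧ ∃ u v, u ≠ v ∧
        ({w : V | w ≠ u ∧ w ≠ v ∧ ¬ (G.Adj w u ↔ G.Adj w v)}.ncard : ℝ) ≤ e - 3)) →
      (Fintype.card ι : ℝ) ≤ (Fintype.card V : ℝ) ^ e := by
    intro h
    have h3 := h1 V G hn (e - 3) h ι W H f hdeck hne
    rwa [sub_add_cancel] at h3
  rcases he with he | ⟨D, hD, hD'⟩ | ⟨u, v, huv, h⟩ | ⟨he, Y, hY, hd⟩
  · exact key (Or.inl (by linarith [le_max_left (C₁ + 3) C₂]))
  · exact key (Or.inr (Or.inl ⟨D, by linarith, hD'⟩))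
  · refine key (Or.inr (Or.inr ⟨?_, u, v, huv, ?_⟩))
    · linarith [le_max_left (1 : ℝ)
        ({w : V | w ≠ u ∧ w ≠ v ∧ ¬ (G.Adj w u ↔ G.Adj w v)}.ncard : ℝ)]
    · linarith [le_max_right (1 : ℝ)
        ({w : V | w ≠ u ∧ w ≠ v ∧ ¬ (G.Adj w u ↔ G.Adj w v)}.ncard : ℝ)]
  · have hlog : 0 ≤ Real.logb 2 (Fintype.card V) := Real.logb_nonneg (by norm_num) hnR
    have hC : C₂ * Real.logb 2 (Fintype.card V) ≤
        max (C₁ + 3) C₂ * Real.logb 2 (Fintype.card V) :=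
      mul_le_mul_of_nonneg_right (le_max_right _ _) hlog
    have hds : ∀ u v : V, (dset G u v).card =
        {w : V | w ≠ u ∧ w ≠ v ∧ ¬ (G.Adj w u ↔ G.Adj w v)}.ncard := by
      intro u v
      rw [← Set.ncard_coe_finset (dset G u v)]
      congr 1
      ext w
      rw [Finset.mem_coe, mem_dset]
      rfl
    have hRec : HER47.Rec G := by
      refine h2 V G Y hn ?_ ?_
      · exact (mul_le_mul_of_nonneg_right hC (Nat.cast_nonneg _)).trans hY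
      · intro u v hu hv huv
        rw [hds]
        exact hC.trans (hd u v hu hv huv)
    have hone : Fintype.card ι ≤ 1 := by
      rw [Fintype.card_le_one_iff]
      intro i j
      by_contra hij
      obtain ⟨a⟩ := hRec (W i) (H i) (f i) (hdeck i)
      obtain ⟨b⟩ := hRec (W j) (H j) (f j) (hdeck j)
      exact hne i j hij ⟨a.symm.trans b⟩
    have hone' : (Fintype.card ι : ℝ) ≤ 1 := by exact_mod_cast hone
    exact hone'.trans (Real.one_le_rpow hnR he)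

end Pool.Agent.NRT
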